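import Pool.Agent.Helper7_MWHP.PSR

/-!
# Block MWHP, row PS0: push, nothing is added in the common block (period `n`)
-/

set_option autoImplicit false

namespace Pool.Agent.MWHP.H22

open Pool.Agent.Helper14_MV Pool.Agent.Helper2_MV Pool.Agent.MVO Pool.Agent.MWL Pool.Agent.MWS
open Pool.Agent.MWA Pool.Agent.MWH Pool.Agent.MWH.H7 Pool.Agent.MWHP Pool.Agent.MWHP.H7

/-- **PS0**. -/
theorem ps0 (nfe : NfeStmt) (okw : Pool.Agent.MWH.OkwStmt) (shw : ShwStmt) : Ps0Stmt := by
  intro n β θ hβ hle k k' f a b a' b' i hf hV hV' hDa hDb hfi hai hbi s s' hs hs' h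
  have a1 := hV.ai
  have b1 := hV.bi
  have a2 := hV'.ai
  have b2 := hV'.bi
  refine push_gen nfe okw shw hβ hle hf hV hV' hDa hDb hs hs' ?_ ?_ ?_ h
  · rw [psh_only hV.ik fun j hj h1 h2 => (hfi j hj h1 h2).1]
    omega
  · rw [psh_only hV.ik fun j hj h1 h2 => (hfi j hj h1 h2).2]
    omega
  · intro t ht
    have htv : Vs a b i t := by
      rcases ht with rfl | rfl
      · exact hs
      · exact hs'
    obtain ⟨o1, o2, o3, o4, o5, o6⟩ := okw k a b i t hV htv
    obtain ⟨L, R, e, hL, hR⟩ := pshB_mid f (W a b i t) i k hV.ik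
    have hL0 : L = [] := by
      rw [List.eq_nil_iff_forall_not_mem]
      intro c hc
      obtain ⟨j, h1, h2, h3⟩ := hL c hc
      obtain ⟨h4, h5⟩ := hfi j (by have := hV.ik; omega) h2 (by omega)
      rw [W_empty (by omega) h4 h5] at h3
      exact absurd h3 (by simp)
    have hR0 : R = [] := by
      rw [List.eq_nil_iff_forall_not_mem]
      intro c hc
      obtain ⟨j, h1, h2, h3, h6⟩ := hR c hc
      obtain ⟨h4, h5⟩ := hfi j h2 h3 (by omega)
      rw [W_empty (by omega) h4 h5] at h6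
      exact absurd h6 (by simp)
    rw [hL0, hR0, List.nil_append, List.append_nil] at e
    rw [e]
    exact ⟨o5, o6⟩

end Pool.Agent.MWHP.H22
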